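import Pool.Agent.H96.JCT.Stmts

/-!
Row IND of the board `jct` (MP_ffb5eb): real induction with finitely many exceptional arguments.
-/

set_option autoImplicit false

open Set

namespace Pool.JCT

/-- Real induction. -/
theorem ind_thm : IND_S := by
  intro c d T g hcd hT hc hd h
  set s : Set ℝ := {x | x ∈ Icc c d ∧ ∀ t ∈ Icc c x, t ∉ T → g t = g c} with hs
  have hcs : c ∈ s := by
    refine ⟨⟨le_rfl, hcd⟩, fun t ht _ => ?_⟩
    rw [le_antisymm ht.2 ht.1]
  have hbdd : BddAbove s := ⟨d, fun x hx => hx.1.2⟩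
  set x : ℝ := sSup s with hx
  have hcx : c ≤ x := le_csSup hbdd hcs
  have hxd : x ≤ d := csSup_le ⟨c, hcs⟩ (fun y hy => hy.1.2)
  have hlt : ∀ t, c ≤ t → t < x → t ∉ T → g t = g c := by
    intro t h1 h2 h3
    obtain ⟨y, hy, hty⟩ := exists_lt_of_lt_csSup ⟨c, hcs⟩ h2
    exact hy.2 t ⟨h1, hty.le⟩ h3
  obtain ⟨δ, hδ, hloc⟩ := h x ⟨hcx, hxd⟩
  -- a good point near `x`
  obtain ⟨t0, ht0, ht0x, ht0T, hgt0⟩ : ∃ t0 ∈ Icc c d, |t0 - x| < δ ∧ t0 ∉ T ∧ g t0 = g c := by
    rcases eq_or_lt_of_le hcx with h0 | h0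
    · exact ⟨c, ⟨le_rfl, hcd⟩, by rw [← h0, sub_self, abs_zero]; exact hδ, hc, rfl⟩
    · have hmx : max c (x - δ) < x := max_lt h0 (by linarith)
      have hinf : (Ioo (max c (x - δ)) x).Infinite := Ioo_infinite hmx
      obtain ⟨t, ht, htT⟩ := hinf.exists_notMem_finite hT
      have h1 : c < t := lt_of_le_of_lt (le_max_left _ _) ht.1
      have h2 : x - δ < t := lt_of_le_of_lt (le_max_right _ _) ht.1
      refine ⟨t, ⟨h1.le, ht.2.le.trans hxd⟩, ?_, htT, hlt t h1.le ht.2 htT⟩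
      rw [abs_lt]
      constructor <;> linarith [ht.2]
  have hnear : ∀ t ∈ Icc c d, |t - x| < δ → t ∉ T → g t = g c := by
    intro t h1 h2 h3
    rw [← hgt0]
    exact hloc t h1 t0 ht0 h2 ht0x h3 ht0T
  have hmem : min d (x + δ / 2) ∈ s := by
    refine ⟨⟨le_min hcd (by linarith), min_le_left _ _⟩, fun t ht htT => ?_⟩
    rcases lt_or_ge t x with h1 | h1
    · exact hlt t ht.1 h1 htT
    · refine hnear t ⟨ht.1, ht.2.trans (min_le_left _ _)⟩ ?_ htT
      have h2 := ht.2.trans (min_le_right _ _)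
      rw [abs_lt]
      constructor <;> linarith
  have hle : min d (x + δ / 2) ≤ x := le_csSup hbdd hmem
  have hdx : min d (x + δ / 2) = d := by
    rcases min_choice d (x + δ / 2) with h1 | h1
    · exact h1
    · rw [h1] at hle
      linarith
  rw [hdx] at hmem
  exact (hmem.2 d ⟨hcd, le_rfl⟩ hd).symm

end Pool.JCT
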